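import Pool.Agent.MP_cce4c9_lc.H28.WP0
import Pool.Agent.MP_cce4c9_lc.H7.BaseA

/-! The moving lemma and the Weil pairing. -/

set_option autoImplicit false

namespace Pool.Agent.MP_cce4c9_lc.H28

open Pool.Agent.MP_cce4c9_lc.H87 Pool.Agent.MP_cce4c9_lc.H7

theorem wp (hW : StmtWR) : StmtWP := fun k K _ _ _ _ _ _ hK =>
  have H : Fa k K := ⟨res hK, fins hK, apx_ord, hW k K hK⟩
  ⟨H.move, fun _ hζ => H.pair hζ⟩

end Pool.Agent.MP_cce4c9_lc.H28
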