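import Pool.Agent.MP_cce4c9_lc.H7.Spec

/-! The moving lemma and the Weil pairing, from three elementary facts and reciprocity. -/

set_option autoImplicit false

open WithZero Finsupp

namespace Pool.Agent.MP_cce4c9_lc.H28

open Pool.Agent.MP_cce4c9_lc.H87 Pool.Agent.MP_cce4c9_lc.H7

variable {k K : Type} [Field k] [Field K] [Algebra k K]

/-- The facts on `K / k` that are used. -/
structure Fa (k K : Type) [Field k] [Field K] [Algebra k K] : Prop where
  res : ∀ v : Place k K, v.Res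
  fin : ∀ h : K, (Function.support fun v : Place k K => v.ord h).Finite
  apx : ∀ (S : Finset (Place k K)) (n : Place k K → ℤ), ∃ y : K, y ≠ 0 ∧ ∀ v ∈ S, v.ord y = n v
  wr : ∀ f g : K, f ≠ 0 → g ≠ 0 → Off f (dv k g) → evD f (dv k g) = evD g (dv k f)

theorem Fa.ap (H : Fa k K) (h : K) (v : Place k K) : dv k h v = v.ord h := dv_apply (H.fin h) v

theorem Fa.dvmul (H : Fa k K) (f g : Kˣ) :
    dv k ((f * g : Kˣ) : K) = dv k (f : K) + dv k (g : K) := by
  ext v
  rw [Finsupp.add_apply, H.ap, H.ap, H.ap, Units.val_mul,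
    v.ord_mul (v.val_unit_ne f) (v.val_unit_ne g)]

theorem Fa.dvpow (H : Fa k K) (f : Kˣ) (n : ℕ) :
    dv k ((f ^ n : Kˣ) : K) = (n : ℤ) • dv k (f : K) := by
  ext v
  rw [Finsupp.smul_apply, H.ap, H.ap, Units.val_pow_eq_pow_val, v.ord_pow, smul_eq_mul]

theorem Fa.eadd (H : Fa k K) {h : K} {D E : Dv k K} (hD : Off h D) (hE : Off h E) :
    evD h (D + E) = evD h D * evD h E := by
  classical
  refine Finsupp.prod_add_index (fun _ _ => zpow_zero _) fun v hv a b => zpow_add₀ ?_ _ _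
  rcases Finset.mem_union.1 hv with hv | hv
  · exact (H.res v).ev_ne_zero (hD v (mem_support_iff.1 hv))
  · exact (H.res v).ev_ne_zero (hE v (mem_support_iff.1 hv))

theorem esmul (h : K) (D : Dv k K) (n : ℕ) : evD h ((n : ℤ) • D) = evD h D ^ n := by
  rw [evD, Finsupp.prod_of_support_subset _ Finsupp.support_smul _ (fun _ _ => zpow_zero _), evD,
    Finsupp.prod, ← Finset.prod_pow]
  refine Finset.prod_congr rfl fun v _ => ?_
  rw [Finsupp.smul_apply, smul_eq_mul, mul_comm, zpow_mul, zpow_natCast]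

theorem Fa.emul (H : Fa k K) {f g : K} {D : Dv k K} (hf : Off f D) (hg : Off g D) :
    evD (f * g) D = evD f D * evD g D := by
  rw [evD, evD, evD, ← Finsupp.prod_mul]
  refine Finsupp.prod_congr fun v hv => ?_
  rw [(H.res v).ev_mul (hf v (mem_support_iff.1 hv)).le (hg v (mem_support_iff.1 hv)).le,
    mul_zpow]

theorem Fa.epow (H : Fa k K) {f : K} {D : Dv k K} (hf : Off f D) (n : ℕ) :
    evD (f ^ n) D = evD f D ^ n := by
  rw [evD, evD, Finsupp.prod, Finsupp.prod, ← Finset.prod_pow]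
  refine Finset.prod_congr rfl fun v hv => ?_
  rw [(H.res v).ev_pow (hf v (mem_support_iff.1 hv)).le, ← zpow_natCast, ← zpow_mul, mul_comm,
    zpow_mul, zpow_natCast]

theorem Fa.ene (H : Fa k K) {f : K} {D : Dv k K} (hf : Off f D) : evD f D ≠ 0 :=
  Finset.prod_ne_zero_iff.2 fun v hv =>
    zpow_ne_zero _ ((H.res v).ev_ne_zero (hf v (mem_support_iff.1 hv)))

variable {l : ℕ} [hl : Fact l.Prime]

theorem lne : (l : ℤ) ≠ 0 := Int.natCast_ne_zero.2 hl.out.ne_zero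

theorem Fa.unit_iff (H : Fa k K) {f : Kˣ} {D : Dv k K} {a : VV k K l} (h : Rep f D a)
    (v : Place k K) : v.val (f : K) = 1 ↔ D v = 0 := by
  rw [v.val_one_iff (v.val_unit_ne f), ← H.ap, h.2, Finsupp.smul_apply, smul_eq_mul,
    mul_eq_zero, or_iff_right lne]

theorem Fa.offsymm (H : Fa k K) {f g : Kˣ} {D E : Dv k K} {a b : VV k K l} (hf : Rep f D a)
    (hg : Rep g E b) (h : Off (f : K) E) : Off (g : K) D := fun v hv =>
  (H.unit_iff hg v).2 (by_contra fun hE => hv ((H.unit_iff hf v).1 (h v hE)))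

theorem Fa.move (H : Fa k K) (a : VV k K l) (S : Finset (Place k K)) :
    ∃ (f : Kˣ) (D : Dv k K), Rep f D a ∧ ∀ v ∈ S, v.val (f : K) = 1 := by
  have : NeZero l := ⟨hl.out.ne_zero⟩
  obtain ⟨f, hf, hd⟩ := mem_VV.1 a.2
  obtain ⟨y, hy0, hy⟩ := H.apx S fun v => -(v.ord (f : K) / l)
  have hdv : dv k ((f * Units.mk0 y hy0 ^ l : Kˣ) : K) =
      (l : ℤ) • ((dv k (f : K)).mapRange (· / (l : ℤ)) (Int.zero_ediv _) + dv k y) := by
    rw [H.dvmul, H.dvpow, smul_add, Units.val_mk0]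
    congr 1
    ext v
    rw [Finsupp.smul_apply, Finsupp.mapRange_apply, H.ap, smul_eq_mul, Int.mul_ediv_cancel' (hd v)]
  have hr : Rep (f * Units.mk0 y hy0 ^ l) _ a :=
    ⟨hf.symm.trans ((Hl.mk_eq_mk l _ _).2 ⟨Units.mk0 y hy0, rfl⟩).symm, hdv⟩
  refine ⟨_, _, hr, fun v hv => (H.unit_iff hr v).2 ?_⟩
  rw [Finsupp.add_apply, Finsupp.mapRange_apply, H.ap, H.ap, hy v hv, add_neg_cancel]

theorem Fa.moveD (H : Fa k K) (a : VV k K l) (E E' : Dv k K) :
    ∃ (f : Kˣ) (D : Dv k K), Rep f D a ∧ Off (f : K) E ∧ Off (f : K) E' := by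
  classical
  obtain ⟨f, D, h, h'⟩ := H.move a (E.support ∪ E'.support)
  exact ⟨f, D, h, fun v hv => h' v (Finset.mem_union_left _ (mem_support_iff.2 hv)),
    fun v hv => h' v (Finset.mem_union_right _ (mem_support_iff.2 hv))⟩

theorem Fa.root (H : Fa k K) {f g : Kˣ} {D E : Dv k K} {a b : VV k K l} (hf : Rep f D a)
    (hg : Rep g E b) (h : Off (f : K) E) : (evD (f : K) E / evD (g : K) D) ^ l = 1 := by
  have h1 : Off (f : K) (dv k (g : K)) := fun v hv => h v fun h0 => hv (by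
    rw [hg.2, Finsupp.smul_apply, h0, smul_zero])
  have h2 := H.wr f g f.ne_zero g.ne_zero h1
  rw [hf.2, hg.2, esmul, esmul] at h2
  rw [div_pow, h2, div_self (pow_ne_zero _ (H.ene (H.offsymm hf hg h)))]

theorem Fa.left (H : Fa k K) {f f' g : Kˣ} {D D' E : Dv k K} {a b : VV k K l} (hf : Rep f D a)
    (hf' : Rep f' D' a) (hg : Rep g E b) (h : Off (f : K) E) (h' : Off (f' : K) E) :
    evD (f' : K) E / evD (g : K) D' = evD (f : K) E / evD (g : K) D := by
  obtain ⟨c, rfl⟩ := (Hl.mk_eq_mk l f' f).1 (hf'.1.symm.trans hf.1)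
  have hD : D' = D + dv k (c : K) := by
    have := hf'.2
    rw [H.dvmul, H.dvpow, hf.2, ← smul_add] at this
    exact (smul_right_injective _ lne this).symm
  have hc : Off (c : K) E := fun v hv => by
    have h1 := (H.unit_iff hf' v).1 (h' v hv)
    rw [hD, Finsupp.add_apply, (H.unit_iff hf v).1 (h v hv), zero_add, H.ap] at h1
    exact (v.val_one_iff (v.val_unit_ne c)).2 h1
  have hgc : Off (g : K) (dv k (c : K)) := fun v hv => (H.unit_iff hg v).2 (by_contra fun hE =>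
    hv (by rw [H.ap]; exact v.ord_of_val_one (hc v hE)))
  have hw := H.wr g c g.ne_zero c.ne_zero hgc
  rw [hg.2, esmul] at hw
  have hcl : Off ((c : K) ^ l) E := fun v hv => by rw [map_pow, hc v hv, one_pow]
  rw [hD, H.eadd (H.offsymm hf hg h) hgc, hw, Units.val_mul, Units.val_pow_eq_pow_val,
    H.emul h hcl, H.epow hc, mul_div_mul_right _ _ (pow_ne_zero _ (H.ene hc))]

theorem Fa.right (H : Fa k K) {f g g' : Kˣ} {D E E' : Dv k K} {a b : VV k K l} (hf : Rep f D a)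
    (hg : Rep g E b) (hg' : Rep g' E' b) (h : Off (f : K) E) (h' : Off (f : K) E') :
    evD (f : K) E' / evD (g' : K) D = evD (f : K) E / evD (g : K) D := by
  rw [← inv_div, H.left hg hg' hf (H.offsymm hf hg h) (H.offsymm hf hg' h'), inv_div]

theorem Fa.both (H : Fa k K) {f f' g g' : Kˣ} {D D' E E' : Dv k K} {a b : VV k K l}
    (hf : Rep f D a) (hf' : Rep f' D' a) (hg : Rep g E b) (hg' : Rep g' E' b)
    (h : Off (f : K) E) (h' : Off (f' : K) E') :
    evD (f' : K) E' / evD (g' : K) D' = evD (f : K) E / evD (g : K) D := by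
  obtain ⟨g₁, E₁, h₁, h₂, h₃⟩ := H.moveD b D D'
  rw [← H.right hf hg h₁ h (H.offsymm h₁ hf h₂), ← H.right hf' hg' h₁ h' (H.offsymm h₁ hf' h₃),
    H.left hf hf' h₁ (H.offsymm h₁ hf h₂) (H.offsymm h₁ hf' h₃)]

/-- `n` is the logarithm of the pairing of `a` and `b`. -/
def Pr (ζ : k) (a b : VV k K l) (n : ZMod l) : Prop :=
  ∀ (f g : Kˣ) (D E : Dv k K), Rep f D a → Rep g E b → Off (f : K) E →
    evD (f : K) E / evD (g : K) D = ζ ^ n.val

theorem Fa.exPr (H : Fa k K) {ζ : k} (hζ : IsPrimitiveRoot ζ l) (a b : VV k K l) :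
    ∃ n, Pr ζ a b n := by
  have : NeZero l := ⟨hl.out.ne_zero⟩
  obtain ⟨g, E, hg, -⟩ := H.move b ∅
  obtain ⟨f, D, hf, h, -⟩ := H.moveD a E E
  obtain ⟨i, hi, he⟩ := hζ.eq_pow_of_pow_eq_one (H.root hf hg h)
  exact ⟨i, fun f' g' D' E' hf' hg' h' => by
    rw [H.both hf hf' hg hg' h h', ZMod.val_cast_of_lt hi, he]⟩

theorem zadd {ζ : k} (hζ : IsPrimitiveRoot ζ l) (a b : ZMod l) :
    ζ ^ (a + b).val = ζ ^ a.val * ζ ^ b.val := by
  have : NeZero l := ⟨hl.out.ne_zero⟩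
  rw [ZMod.val_add, ← pow_eq_pow_mod _ hζ.pow_eq_one, pow_add]

theorem zinj {ζ : k} (hζ : IsPrimitiveRoot ζ l) {a b : ZMod l} (h : ζ ^ a.val = ζ ^ b.val) :
    a = b := by
  have : NeZero l := ⟨hl.out.ne_zero⟩
  exact ZMod.val_injective l (hζ.pow_inj (ZMod.val_lt a) (ZMod.val_lt b) h)

theorem Fa.prAdd (H : Fa k K) {ζ : k} (hζ : IsPrimitiveRoot ζ l) {a a' b : VV k K l}
    {n n' m : ZMod l} (h : Pr ζ a b n) (h' : Pr ζ a' b n') (hm : Pr ζ (a + a') b m) :
    m = n + n' := by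
  obtain ⟨g, E, hg, -⟩ := H.move b ∅
  obtain ⟨f, D, hf, ho, -⟩ := H.moveD a E E
  obtain ⟨f', D', hf', ho', -⟩ := H.moveD a' E E
  have hr : Rep (f * f') (D + D') (a + a') :=
    ⟨by rw [Submodule.coe_add, hf.1, hf'.1, Hl.mk_mul], by rw [H.dvmul, hf.2, hf'.2, smul_add]⟩
  have ho2 : Off ((f * f' : Kˣ) : K) E := fun v hv => by
    rw [Units.val_mul, map_mul, ho v hv, ho' v hv, one_mul]
  apply zinj hζ
  rw [zadd hζ, ← h f g D E hf hg ho, ← h' f' g D' E hf' hg ho', ← hm _ g _ E hr hg ho2,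
    Units.val_mul, H.emul ho ho', H.eadd (H.offsymm hf hg ho) (H.offsymm hf' hg ho'),
    mul_div_mul_comm]

theorem Fa.prNeg (H : Fa k K) {ζ : k} (hζ : IsPrimitiveRoot ζ l) {a b : VV k K l}
    {n m : ZMod l} (h : Pr ζ a b n) (h' : Pr ζ b a m) : n = -m := by
  obtain ⟨g, E, hg, -⟩ := H.move b ∅
  obtain ⟨f, D, hf, ho, -⟩ := H.moveD a E E
  have ho' := H.offsymm hf hg ho
  rw [eq_neg_iff_add_eq_zero]
  apply zinj hζ
  rw [zadd hζ, ← h f g D E hf hg ho, ← h' g f E D hg hf ho', ZMod.val_zero, pow_zero,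
    div_mul_div_cancel₀ (H.ene ho'), div_self (H.ene ho)]

theorem Fa.pair (H : Fa k K) {ζ : k} (hζ : IsPrimitiveRoot ζ l) :
    ∃ e : VV k K l →ₗ[ZMod l] VV k K l →ₗ[ZMod l] ZMod l, IsWP ζ e := by
  choose e he using H.exPr (l := l) hζ
  have hn : ∀ a b, e a b = -e b a := fun a b => H.prNeg hζ (he a b) (he b a)
  have ha : ∀ a a' b, e (a + a') b = e a b + e a' b := fun a a' b =>
    H.prAdd hζ (he a b) (he a' b) (he _ b)
  have hb : ∀ a b b', e a (b + b') = e a b + e a b' := fun a b b' => by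
    rw [hn, ha, hn b, hn b']; ring
  refine ⟨(AddMonoidHom.mk' (fun a => (AddMonoidHom.mk' (e a) (hb a)).toZModLinearMap l)
    fun a a' => LinearMap.ext fun b => ha a a' b).toZModLinearMap l, hn,
    fun f g D E a b hf hg ho ho' => ?_⟩
  exact (div_eq_iff (H.ene ho')).1 (he a b f g D E hf hg ho)

end Pool.Agent.MP_cce4c9_lc.H28
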